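import Pool.Agent.Y92.ZX.Stm

/-!
# Project ZX, block NF: the local field at an unramified place of a number field
-/

set_option autoImplicit false
set_option linter.unusedSectionVars false

open UpperHalfPlane H294ZP Polynomial IsDedekindDomain NumberField

namespace Pool.Agent.Y61.ZX

open Pool.Agent.Y226 Pool.Agent.Y226.ZG Pool.Agent.Y226.ZM Pool.Agent.Y226.ZU

section res

variable {C : Type} [NormedField C] [IsUltrametricDist C] {p : ℕ} [hpf : Fact p.Prime]

/-- the residue field is algebraically closed, and the reduction is surjective -/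
theorem exists_residue3 [IsAlgClosed C] (hp1 : ‖(p : C)‖ < 1) : ∃ (k : Type) (_ : Field k)
    (_ : CharP k p) (_ : IsAlgClosed k) (red : OO C →+* k),
    (∀ x : OO C, red x = 0 ↔ ‖(x : C)‖ < 1) ∧ Function.Surjective red := by
  let I : Ideal (OO C) :=
    { carrier := {x | ‖(x : C)‖ < 1}
      add_mem' := fun {a b} ha hb => by
        show ‖((a + b : OO C) : C)‖ < 1
        rw [Subring.coe_add]
        exact nadd_lt ha hb
      zero_mem' := by show ‖((0 : OO C) : C)‖ < 1; simp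
      smul_mem' := fun c {x} hx => by
        show ‖((c * x : OO C) : C)‖ < 1
        rw [Subring.coe_mul, norm_mul]
        have h1 : ‖(c : C)‖ ≤ 1 := c.2
        have h2 : ‖(x : C)‖ < 1 := hx
        have := norm_nonneg (x : C)
        nlinarith }
  have hmem : ∀ x : OO C, x ∈ I ↔ ‖(x : C)‖ < 1 := fun x => Iff.rfl
  have hmax : I.IsMaximal := by
    rw [Ideal.isMaximal_iff]
    refine ⟨by rw [hmem]; simp, ?_⟩
    intro J x hIJ hx hxJ
    rw [hmem] at hx
    have hx1 : ‖(x : C)‖ = 1 := le_antisymm x.2 (not_lt.1 hx)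
    have hx0 : (x : C) ≠ 0 := norm_pos_iff.1 (by rw [hx1]; exact one_pos)
    have h2 : (⟨(x : C)⁻¹, by rw [mem_OO, norm_inv, hx1, inv_one]⟩ : OO C) * x = 1 :=
      Subtype.ext (inv_mul_cancel₀ hx0)
    rw [← h2]
    exact J.mul_mem_left _ hxJ
  letI hfield : Field (OO C ⧸ I) := Ideal.Quotient.field I
  refine ⟨OO C ⧸ I, hfield, ?_, ?_, Ideal.Quotient.mk I, ?_, Ideal.Quotient.mk_surjective⟩
  · have h0 : ((p : ℕ) : OO C ⧸ I) = 0 := by
      have : ((p : ℕ) : OO C ⧸ I) = Ideal.Quotient.mk I (p : OO C) := by simp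
      rw [this, Ideal.Quotient.eq_zero_iff_mem, hmem]
      simpa using hp1
    have hnt : Nontrivial (OO C ⧸ I) := Ideal.Quotient.nontrivial_iff.2 hmax.ne_top
    have : @CharP (OO C ⧸ I) (Ideal.Quotient.commRing I).toAddCommGroupWithOne.toAddMonoidWithOne p := by
      exact (CharP.charP_iff_prime_eq_zero hpf.out).2 h0
    exact this
  · apply IsAlgClosed.of_exists_root
    intro f hf hirr
    have hlift : f ∈ lifts (Ideal.Quotient.mk I) := by
      rw [lifts_iff_coeff_lifts]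
      intro i
      exact Ideal.Quotient.mk_surjective _
    obtain ⟨F, hF, hdeg, hFm⟩ := lifts_and_natDegree_eq_and_monic hlift hf
    have hpos : 0 < f.natDegree := hirr.natDegree_pos
    obtain ⟨x, hx⟩ := IsAlgClosed.exists_root (F.map (OO C).subtype) (by
      rw [degree_eq_natDegree (hFm.map _).ne_zero, hFm.natDegree_map, hdeg]
      exact_mod_cast hpos.ne')
    have hx' : F.eval₂ (OO C).subtype x = 0 := by
      rw [← eval_map]; exact hx
    have hxn := OO_root hFm hx'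
    refine ⟨Ideal.Quotient.mk I ⟨x, hxn⟩, ?_⟩
    have h1 : F.eval (⟨x, hxn⟩ : OO C) = 0 := by
      apply Subtype.ext
      have h2 := hom_eval₂ F (RingHom.id (OO C)) (OO C).subtype ⟨x, hxn⟩
      rw [RingHom.comp_id] at h2
      exact h2.trans hx'
    have h2 := congrArg (Ideal.Quotient.mk I) h1
    rw [map_zero, ← eval_map_apply] at h2
    rw [← hF]
    exact h2
  · intro x
    rw [Ideal.Quotient.eq_zero_iff_mem, hmem]

/-- an element of a field of characteristic `p` which is algebraic over the prime field is fixed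
by a power of the Frobenius -/
theorem fixed_of_integral {k : Type} [Field k] [Algebra (ZMod p) k] {z : k}
    (hz : IsIntegral (ZMod p) z) : ∃ f : ℕ, 0 < f ∧ z ^ p ^ f = z := by
  classical
  haveI := IntermediateField.adjoin.finiteDimensional hz
  set F := IntermediateField.adjoin (ZMod p) {z} with hF
  haveI : Finite F := Module.finite_of_finite (ZMod p)
  letI := Fintype.ofFinite F
  haveI : CharP F p := charP_of_injective_algebraMap (algebraMap (ZMod p) F).injective p
  obtain ⟨m, -, hm⟩ := FiniteField.card F p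
  have hzF : z ∈ F := IntermediateField.mem_adjoin_simple_self _ _
  have h := FiniteField.pow_card (⟨z, hzF⟩ : F)
  rw [hm] at h
  exact ⟨m, m.2, congrArg Subtype.val h⟩

/-- the residue field of the ring of almost unramified elements -/
theorem exists_res_Nr0 {k : Type} [Field k] (red : OO C →+* k)
    (hker : ∀ x : OO C, red x = 0 ↔ ‖(x : C)‖ < 1) :
    ∃ (𝕜 : Type) (_ : Field 𝕜) (ρ : Nr C p →+* 𝕜)
      (ι : 𝕜 →+* k), Function.Surjective ρ ∧ ∀ r : Nr C p, ι (ρ r) = red ⟨r, Nr_le r.2⟩ := by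
  have hle : Nr C p ≤ OO C := fun x hx => Nr_le hx
  let I : Ideal (Nr C p) :=
    { carrier := {x | ‖(x : C)‖ < 1}
      add_mem' := fun {a b} ha hb => by
        show ‖((a + b : Nr C p) : C)‖ < 1
        rw [Subring.coe_add]
        exact nadd_lt ha hb
      zero_mem' := by show ‖((0 : Nr C p) : C)‖ < 1; simp
      smul_mem' := fun c {x} hx => by
        show ‖((c * x : Nr C p) : C)‖ < 1
        rw [Subring.coe_mul, norm_mul]
        have h1 : ‖(c : C)‖ ≤ 1 := Nr_le c.2
        have h2 : ‖(x : C)‖ < 1 := hx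
        have := norm_nonneg (x : C)
        nlinarith }
  have hmem : ∀ x : Nr C p, x ∈ I ↔ ‖(x : C)‖ < 1 := fun x => Iff.rfl
  have hmax : I.IsMaximal := by
    rw [Ideal.isMaximal_iff]
    refine ⟨by rw [hmem]; simp, ?_⟩
    intro J x hIJ hx hxJ
    rw [hmem] at hx
    have hx1 : ‖(x : C)‖ = 1 := le_antisymm (Nr_le x.2) (not_lt.1 hx)
    have hx0 : (x : C) ≠ 0 := norm_pos_iff.1 (by rw [hx1]; exact one_pos)
    have h2 : (⟨(x : C)⁻¹, Nr_inv x.2 hx1⟩ : Nr C p) * x = 1 :=
      Subtype.ext (inv_mul_cancel₀ hx0)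
    rw [← h2]
    exact J.mul_mem_left _ hxJ
  have hι : ∀ r : Nr C p, Ideal.Quotient.lift I (red.comp (Subring.inclusion hle))
      (fun a ha => by rw [RingHom.comp_apply, hker]; exact ha) (Ideal.Quotient.mk I r) =
      red ⟨r, Nr_le r.2⟩ := fun r => by
    rw [Ideal.Quotient.lift_mk]
    rfl
  exact ⟨Nr C p ⧸ I, Ideal.Quotient.field I, Ideal.Quotient.mk I, Ideal.Quotient.lift I
    (red.comp (Subring.inclusion hle)) _, Ideal.Quotient.mk_surjective, hι⟩

/-- the residue field of the ring of almost unramified elements is algebraically closed -/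
theorem exists_res_Nr [IsAlgClosed C] {k : Type} [Field k] [CharP k p] [IsAlgClosed k]
    (hp1 : ‖(p : C)‖ < 1) (red : OO C →+* k) (hker : ∀ x : OO C, red x = 0 ↔ ‖(x : C)‖ < 1)
    (hsurj : Function.Surjective red) :
    ∃ (𝕜 : Type) (_ : Field 𝕜) (_ : IsAlgClosed 𝕜) (_ : CharP 𝕜 p) (ρ : Nr C p →+* 𝕜)
      (ι : 𝕜 →+* k), Function.Surjective ρ ∧ ∀ r : Nr C p, ι (ρ r) = red ⟨r, Nr_le r.2⟩ := by
  obtain ⟨𝕜, _, ρ, ι, hρ, hι⟩ := exists_res_Nr0 (p := p) red hker
  have hch : CharP 𝕜 p := RingHom.charP ι (RingHom.injective ι) p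
  refine ⟨𝕜, inferInstance, ?_, hch, ρ, ι, hρ, hι⟩
  -- every element of `𝕜` is fixed by a power of the Frobenius
  have hfix : ∀ s : 𝕜, ∃ f : ℕ, 0 < f ∧ s ^ p ^ f = s := by
    intro s
    obtain ⟨r, rfl⟩ := hρ s
    obtain ⟨-, f, hf, h⟩ := r.2
    refine ⟨f, hf, ?_⟩
    rw [← sub_eq_zero, ← map_pow, ← map_sub]
    apply RingHom.injective ι
    rw [map_zero, hι, hker]
    exact h.trans_lt hp1
  have hA : ∀ (z : k) (f : ℕ), 0 < f → z ^ p ^ f = z → ∃ r : 𝕜, ι r = z := by
    intro z f hf hz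
    obtain ⟨x, rfl⟩ := hsurj z
    have h1 : ‖(x : C) ^ p ^ f - x‖ < 1 := by
      have h2 : red (x ^ p ^ f - x) = 0 := by rw [map_sub, map_pow, hz, sub_self]
      have h3 := (hker _).1 h2
      exact h3
    obtain ⟨ζ, hζ, hlt⟩ := exists_fixed hf h1
    refine ⟨ρ ⟨ζ, Nr_of_fixed hf hζ⟩, ?_⟩
    rw [hι, ← sub_eq_zero, ← map_sub, hker]
    rw [← norm_neg]
    show ‖-(ζ - (x : C))‖ < 1
    rwa [neg_sub]
  letI : Algebra (ZMod p) 𝕜 := ZMod.algebra _ p
  letI : Algebra (ZMod p) k := ZMod.algebra _ p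
  letI : Algebra 𝕜 k := ι.toAlgebra
  haveI : IsScalarTower (ZMod p) 𝕜 k :=
    IsScalarTower.of_algebraMap_eq' (Subsingleton.elim _ _)
  haveI : Algebra.IsIntegral (ZMod p) 𝕜 := by
    refine ⟨fun s => ?_⟩
    obtain ⟨f, hf, h⟩ := hfix s
    refine ⟨X ^ p ^ f - X, ?_, ?_⟩
    · apply monic_X_pow_sub
      rw [degree_X]
      exact_mod_cast Nat.one_lt_pow hf.ne' hpf.out.one_lt
    · simp [h]
  apply IsAlgClosed.of_exists_root
  intro g hg hirr
  obtain ⟨z, hz⟩ := IsAlgClosed.exists_root (g.map ι) (by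
    rw [degree_eq_natDegree (hg.map _).ne_zero, hg.natDegree_map]
    exact_mod_cast hirr.natDegree_pos.ne')
  have hz1 : g.eval₂ ι z = 0 := by rw [← eval_map]; exact hz
  have hz2 : IsIntegral 𝕜 z := ⟨g, hg, hz1⟩
  have hz3 : IsIntegral (ZMod p) z := isIntegral_trans z hz2
  obtain ⟨f, hf, hzf⟩ := fixed_of_integral hz3
  obtain ⟨r, hr⟩ := hA z f hf hzf
  refine ⟨r, ?_⟩
  apply (RingHom.injective ι)
  rw [map_zero, ← hz1, ← hr, eval₂_at_apply]

end res

theorem nf : Pool.Agent.Y92.ZX.S_NF := by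
  intro p hpf K _ _ σ v hpv hpv2
  obtain ⟨C, _, _, _, _, _, -, hpn⟩ := exists_padic p
  have hpR : (1 : ℝ) < p := by exact_mod_cast hpf.out.one_lt
  have hp0 : 0 < ‖(p : C)‖ := by rw [hpn]; exact inv_pos.2 (by linarith)
  have hp1 : ‖(p : C)‖ < 1 := by rw [hpn]; exact inv_lt_one_of_one_lt₀ hpR
  obtain ⟨k, _, _, _, red, hker, hsurj⟩ := exists_residue3 (C := C) (p := p) hp1
  obtain ⟨𝕜, _, _, _, ρ, ι, hρ, hι⟩ := exists_res_Nr (C := C) (p := p) hp1 red hker hsurj
  have halgσ : ∀ x : K, IsAlgebraic ℚ (σ x) := fun x =>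
    (Algebra.IsAlgebraic.isAlgebraic (R := ℚ) x).algHom σ.toRatAlgHom
  let σ' : K →+* QA :=
    { toFun := fun x => ⟨σ x, mem_QA.2 (halgσ x)⟩
      map_one' := Subtype.ext (map_one σ)
      map_mul' := fun x y => Subtype.ext (map_mul σ x y)
      map_zero' := Subtype.ext (map_zero σ)
      map_add' := fun x y => Subtype.ext (map_add σ x y) }
  have hσ' : ∀ x, rA (σ' x) = σ x := fun x => rfl
  obtain ⟨τ, hτ⟩ := exists_embedding hp1 v hpv
  obtain ⟨φ, hφ⟩ := exists_phi σ' τ
  refine ⟨C, inferInstance, inferInstance, inferInstance, inferInstance, inferInstance, k,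
    inferInstance, inferInstance, inferInstance, red, 𝕜, inferInstance, inferInstance,
    inferInstance, ρ, ι, φ, σ', hσ', hp0, hp1, hker, hρ, hι, ?_, ?_, ?_⟩
  · intro x hx
    rw [hφ]
    have hn : ‖τ x‖ ≤ 1 := by
      obtain ⟨n, d, hnd⟩ := v.exists_primeCompl_mul_eq_of_integer x hx
      have hd : (d : 𝓞 K) ∉ v.asIdeal := d.2
      have h := congrArg (fun y => ‖τ y‖) hnd
      simp only [map_mul, norm_mul] at h
      rw [norm_unit hτ hd, mul_one] at h
      rw [h]
      exact int_norm_le _ _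
    refine ⟨hn, (Nat.card (𝓞 K ⧸ v.asIdeal)).factorial, Nat.factorial_pos _, ?_⟩
    exact unr_range hp0 hp1 hpv hpv2 hτ le_rfl (τ x) ⟨x, rfl⟩ hn
  · intro x
    rw [hφ]
    exact hτ x
  · intro x m hx
    rw [hφ]
    exact norm_of_val hp0 hpv hpv2 hτ hx

end Pool.Agent.Y61.ZX
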